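import Mathlib

namespace Pool.Agent.Lib.MP_35cce7_an

/-- The generator `a` is removable over the set `C` of other generators. -/
inductive Rem {B : Type} (M : CoxeterMatrix B) : B → Set B → Prop
  | mk (a : B) (C : Set B) : (∀ t ∈ C, Even (M a t)) →
      (∀ b ∈ C, 4 ≤ M a b → Rem M b {c ∈ C | M a c = 2}) → Rem M a C

end Pool.Agent.Lib.MP_35cce7_an
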