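import Pool.Agent.Lib.MP_35cce7_an.Rm.M
import Pool.Agent.Lib.MP_35cce7_an.Rm.Defs
import Pool.Agent.Lib.MP_35cce7_an.EvRD
import Pool.Agent.Lib.MP_35cce7_an.QMain

/-! Removable generators do not matter for rapid decay. -/

namespace Pool.Agent.Lib.MP_35cce7_an.Rm

open Pool.Agent.Lib.MP_5d3e93_al.At

variable {B : Type} {M : CoxeterMatrix B} {a b : B} {T C : Set B}

theorem good_sub (hb : b ∈ T) (hC : C ⊆ T) :
    Good (sub M (· ∈ T)) ⟨b, hb⟩ (Subtype.val ⁻¹' C) ↔ Good M b C := by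
  obtain ⟨φ, f, s, t, i⟩ : ∃ φ : Ar (sub M (· ∈ T)) →* Ar M, (∀ {g} {U : Set B},
      φ g ∈ par M U ↔ g ∈ par (sub M (· ∈ T)) (Subtype.val ⁻¹' U)) ∧
      (∀ {g}, g ∈ par M C → ∃ x, φ x = g) ∧ gn M b = φ (gn _ ⟨b, hb⟩) ∧ ∀ {x}, φ x = 1 ↔ x = 1 :=
    ⟨_, on_mem, fun q => on_rng.ge (par_mono hC q), ((subE M (· ∈ T)).hom_gn ⟨b, hb⟩).symm,
      map_eq_one_iff _ (subE M (· ∈ T)).hom_inj⟩
  constructor
  · intro h
    refine ⟨fun n m c c1 d d1 e => ?_, fun p p1 q q1 r r1 w w1 z => ?_,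
      fun n p p1 q q1 r r1 z => ?_⟩
    · obtain ⟨c, rfl⟩ := s c1
      obtain ⟨d, rfl⟩ := s d1
      exact (h.n n m c (f.1 c1) d (f.1 d1) (i.1 (by simpa [t] using e))).imp_right
        fun y => (f (U := {c ∈ C | M b c = 2})).2 y
    · obtain ⟨p, rfl⟩ := s p1
      obtain ⟨q, rfl⟩ := s q1
      obtain ⟨r, rfl⟩ := s r1
      obtain ⟨w, rfl⟩ := s w1
      exact (h.a p (f.1 p1) q (f.1 q1) r (f.1 r1) w (f.1 w1) (i.1 (by simpa [t] using z))).imp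
        (fun y => by simpa [t] using f.2 y) fun y => by simpa [t] using f.2 y
    · obtain ⟨p, rfl⟩ := s p1
      obtain ⟨q, rfl⟩ := s q1
      obtain ⟨r, rfl⟩ := s r1
      exact h.m n p (f.1 p1) q (f.1 q1) r (f.1 r1)
        (z.imp (fun z => i.1 (by simpa [t] using z)) fun z => i.1 (by simpa [t] using z))
  · intro h
    refine ⟨fun n m c c1 d d1 e => ?_, fun p p1 q q1 r r1 w w1 z => ?_,
      fun n p p1 q q1 r r1 z => ?_⟩
    · refine (h.n n m _ (f.2 c1) _ (f.2 d1) ?_).imp_right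
        fun y => (f (U := {c ∈ C | M b c = 2})).1 y
      rw [t, ← map_zpow, ← map_zpow, ← map_mul, ← map_mul, ← map_mul, e, map_one]
    · exact (h.a _ (f.2 p1) _ (f.2 q1) _ (f.2 r1) _ (f.2 w1) (by simpa [t] using i.2 z)).imp
        (fun y => f.1 (by simpa [t] using y)) fun y => f.1 (by simpa [t] using y)
    · exact h.m n _ (f.2 p1) _ (f.2 q1) _ (f.2 r1)
        (z.imp (fun z => by simpa [t] using i.2 z) fun z => by simpa [t] using i.2 z)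

theorem loc_sub (ha : a ∈ T) (h1 : ∀ t ∈ T, t ≠ a → Even (M a t))
    (h2 : ∀ b ∈ T, 4 ≤ M a b → Good M b {c ∈ T | M a c = 2}) :
    (∀ t, t ≠ ⟨a, ha⟩ → Even (sub M (· ∈ T) ⟨a, ha⟩ t)) ∧ ∀ b, 4 ≤ sub M (· ∈ T) ⟨a, ha⟩ b →
      Good (sub M (· ∈ T)) b {c | sub M (· ∈ T) ⟨a, ha⟩ c = 2} := by
  refine ⟨fun t e => h1 _ t.2 (Subtype.val_injective.ne e), fun b e => ?_⟩
  have := (good_sub b.2 fun _ h => h.1).2 (h2 _ b.2 e)
  rwa [show Subtype.val ⁻¹' {c ∈ T | M a c = 2} =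
    {c : {x // x ∈ T} | sub M (· ∈ T) ⟨a, ha⟩ c = 2} from
      Set.ext fun c => and_iff_right c.2] at this

theorem ins (h : ∀ b ∈ C, 4 ≤ M a b → Good M b {c ∈ C | M a c = 2}) :
    ∀ b ∈ insert a C, 4 ≤ M a b → Good M b {c ∈ insert a C | M a c = 2} := by
  rw [show {c ∈ insert a C | M a c = 2} = {c ∈ C | M a c = 2} from Set.ext fun c =>
    and_congr_left fun e => or_iff_right (by rintro rfl; simp at e)]
  rintro b (rfl | k) e
  · simp at e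
  · exact h b k e

theorem good_of_rem (h : Rem M a C) : Good M a C := by
  induction h with | mk a C h1 _ ih => ?_
  have n : a ∉ C := fun k => by simpa using h1 a k
  obtain ⟨p, q⟩ := loc_sub (T := insert a C) (.inl rfl) (fun t k e => h1 t (k.resolve_left e))
    (ins ih)
  refine (good_sub (T := insert a C) (.inl rfl) (Set.subset_insert ..)).1 ?_
  rw [show Subtype.val ⁻¹' C = ({⟨a, .inl rfl⟩}ᶜ : Set {x // x ∈ insert a C}) from
    Set.ext fun c => ⟨fun k e => n (by subst e; exact k),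
      fun k => c.2.resolve_left fun e => k (Subtype.ext e)⟩]
  exact rm_good p q

theorem rv_rd {G κ ι : Type} [Group G] [Finite ι] {D : Rv G κ} (h : D.L4) {σ : ι → G}
    (g0 : GRD (G ⧸ D.H) (Ball σ)) : RDb (Ball σ) := by
  refine tc_rd (Rv.tc h) (Rv.tc_hw h) (Rv.tc_hc h) (Rv.tc_sc h) (D.vx .h 1) (grd_rel
    (fun w (v : G ⧸ D.H) => ∃ τ, ∃ g : G, w = D.vx τ g ∧ v = g) ?_ (fun w => ?_) (n := 1)
    (fun w => ?_) g0)
  · rintro x _ _ ⟨τ, g, rfl, rfl⟩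
    exact ⟨τ, x * g, rfl, rfl⟩
  · obtain ⟨τ, g, e⟩ := Rv.vx_surj w
    exact ⟨_, τ, g, e, rfl⟩
  · refine Set.encard_le_one_iff.2 ?_
    rintro _ _ ⟨τ, g, rfl, rfl⟩ ⟨τ', g', e, rfl⟩
    exact QuotientGroup.eq.2 (Rv.sb_le _ (Rv.vx_eq.1 e).2)

/-- rapid decay passes from the parabolic subgroup without `a` to the group -/
theorem rd_step [Finite B] (ha : ∀ t, t ≠ a → Even (M a t))
    (hg : ∀ b, 4 ≤ M a b → Good M b {c | M a c = 2})
    (h : RDb (Ball (gn (sub M (· ∈ ({a}ᶜ : Set B)))))) : RDb (Ball (gn M)) := by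
  obtain ⟨D, h1, -, -, l⟩ := rm_ex ha hg
  obtain ⟨ρ, r1, r2⟩ := (subE M (· ∈ ({a}ᶜ : Set B))).retr2
  have := grd_orbit _ ρ r1 r2 h
  rw [on_rng, ← h1] at this
  exact rv_rd l this

theorem rd_rem [Finite B] [DecidableEq B] {T : Finset B} (ha : a ∈ T)
    (h : Rem M a ((T : Set B) \ {a})) (k : HasRD (res M (T.erase a))) : HasRD (res M T) := by
  obtain ⟨_, _, h1, h2⟩ := h
  have e : insert a ((T : Set B) \ {a}) = T := by simpa using ha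
  have := ins fun b p q => good_of_rem (h2 b p q)
  rw [e] at this
  obtain ⟨p, q⟩ := loc_sub (T := (T : Set B)) ha (fun t k e => h1 t ⟨k, e⟩) this
  refine (rd_iff _).2 (rd_step p q (Emb.down (M := res M (T.erase a)) ⟨fun i =>
    ⟨i.1.1, Finset.mem_erase.2 ⟨fun e => i.2 (Subtype.ext e), i.1.2⟩⟩, fun i j e => ?_,
      fun _ _ => rfl⟩ ((rd_iff _).1 k)))
  exact Subtype.ext (Subtype.ext (Subtype.mk.inj e))

/-- It is enough to treat the cores. -/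
theorem all_of_core {n : ℕ} (M : CoxeterMatrix (Fin n))
    (h : ∀ T : Finset (Fin n), (∀ U ⊂ T, HasRD (res M U)) → 4 ≤ T.card →
      (∀ i ∈ T, ∀ j ∈ T, M i j ≠ 0) →
      (∀ U ⊆ T, U.Nonempty → U ≠ T → ∃ i ∈ U, ∃ j ∈ T \ U, M i j ≠ 2) →
      ((∃ i ∈ T, ∃ j ∈ T, ∃ k ∈ T, M i j = 2 ∧ M j k = 2 ∧ 3 ≤ M i k) ∨
        ∃ U ⊆ T, ∀ i ∈ T, ∀ j ∈ T, i ≠ j → (i ∈ U ↔ j ∈ U) → M i j = 2) →
      (∃ i ∈ T, ∃ j ∈ T, ∃ k ∈ T, i ≠ j ∧ j ≠ k ∧ i ≠ k ∧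
        (1 : ℚ) < 1 / M i j + 1 / M j k + 1 / M i k) → HasRD (res M T)) : HasRD M := by
  suffices a : ∀ T, HasRD (res M T) from (Q.main3 n M).2 fun T _ _ _ _ _ => a T
  intro T
  induction T using Finset.strongInduction with | _ T ih => ?_
  let N : CoxeterMatrix (Fin n) := ⟨Matrix.of fun i j => if i = j ∨ i ∈ T ∧ j ∈ T then M i j else 0,
    Matrix.IsSymm.ext fun i j => by simp [M.symmetric i j, and_comm, eq_comm], fun i => by simp,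
    fun i j e => by
      have := M.off_diagonal i j e
      simp only [Matrix.of_apply]
      split_ifs <;> simp [this]⟩
  have e : ∀ i ∈ T, ∀ j ∈ T, N i j = M i j := fun i p j q => if_pos (.inr ⟨p, q⟩)
  refine (rd_iff _).2 (Emb.down (M := N) ⟨Subtype.val, Subtype.val_injective,
    fun i j => (e _ i.2 _ j.2).symm⟩ ((rd_iff _).1 ((Q.main3 n N).2 fun U h1 h2 h3 h4 h5 => ?_)))
  have s : U ⊆ T := fun i p => by
    obtain ⟨j, q, r⟩ := Finset.exists_mem_ne (by omega : 1 < U.card) i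
    by_contra k
    exact h2 i p j q (if_neg fun y => y.elim (fun y => r y.symm) fun y => k y.1)
  refine (rd_iff _).2 (Emb.down (M := res M U) ⟨id, Function.injective_id,
    fun i j => e _ (s i.2) _ (s j.2)⟩ ((rd_iff _).1 ?_))
  obtain s | rfl := s.ssubset_or_eq
  · exact ih U s
  refine h U ih h1 (fun i p j q => e i p j q ▸ h2 i p j q) (fun V v1 v2 v3 => ?_) ?_ ?_
  · obtain ⟨i, p, j, q, r⟩ := h3 V v1 v2 v3
    exact ⟨i, p, j, q, e i (v1 p) j (Finset.mem_sdiff.1 q).1 ▸ r⟩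
  · refine h4.imp (fun ⟨i, p, j, q, k, r, y⟩ => ⟨i, p, j, q, k, r, ?_⟩)
      fun ⟨V, v, y⟩ => ⟨V, v, fun i p j q r s => e i p j q ▸ y i p j q r s⟩
    rwa [e i p j q, e j q k r, e i p k r] at y
  · obtain ⟨i, p, j, q, k, r, y⟩ := h5
    exact ⟨i, p, j, q, k, r, by rwa [e i p j q, e j q k r, e i p k r] at y⟩

theorem main5 (n : ℕ) (M : CoxeterMatrix (Fin n)) : HasRD M ↔
    ∀ T : Finset (Fin n), 4 ≤ T.card → (∀ i ∈ T, ∀ j ∈ T, M i j ≠ 0) →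
      (∀ U ⊆ T, U.Nonempty → U ≠ T → ∃ i ∈ U, ∃ j ∈ T \ U, M i j ≠ 2) →
      ((∃ i ∈ T, ∃ j ∈ T, ∃ k ∈ T, M i j = 2 ∧ M j k = 2 ∧ 3 ≤ M i k) ∨
        ∃ U ⊆ T, ∀ i ∈ T, ∀ j ∈ T, i ≠ j → (i ∈ U ↔ j ∈ U) → M i j = 2) →
      (∃ i ∈ T, ∃ j ∈ T, ∃ k ∈ T, i ≠ j ∧ j ≠ k ∧ i ≠ k ∧
        (1 : ℚ) < 1 / M i j + 1 / M j k + 1 / M i k) →
      (∀ a ∈ T, ¬ Rem M a ((T : Set (Fin n)) \ {a})) → HasRD (res M T) := by
  refine ⟨fun h T h1 h2 h3 h4 h5 _ => (Q.main3 n M).1 h T h1 h2 h3 h4 h5,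
    fun h => all_of_core M fun T ih h1 h2 h3 h4 h5 => ?_⟩
  by_cases k : ∃ a ∈ T, Rem M a ((T : Set (Fin n)) \ {a})
  · obtain ⟨a, p, q⟩ := k
    exact rd_rem p q (ih _ (Finset.erase_ssubset p))
  · exact h T h1 h2 h3 h4 h5 fun a p q => k ⟨a, p, q⟩

end Pool.Agent.Lib.MP_35cce7_an.Rm
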