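import Pool.Agent.Lib.MP_35cce7_an.Rm.D

/-! Short relations between the stabilisers, and triangles with a common edge. -/

namespace Pool.Agent.Lib.MP_35cce7_an.Rm.Rv

variable {G ι : Type} [Group G] {D : Rv G ι} {i i' : ι} {j j' : ℕ} {g g' x : G}

theorem vvK (hj : j ≤ D.k i) (h : g⁻¹ * g' ∈ D.K i) : D.vv i j g = D.vv i j g' := by
  rw [← vv_K hj g h, mul_inv_cancel_left]

theorem o_eq : D.vx .o g = D.vx .o g' ↔ g⁻¹ * g' ∈ D.O := vx_eq.trans (and_iff_right rfl)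

theorem cy (a : x ∈ D.O) (b : x ∈ D.K i) (m : ℕ) : D.y i ^ m * x = x * D.y i ^ m :=
  ((Commute.mul_left (D.ca x a) (D.cb i x a b)).pow_left m).eq

theorem oL (a : g⁻¹ * g' ∈ D.O) (b : g⁻¹ * g' ∈ D.K i) (m : ℕ) :
    D.vx .o (g * D.y i ^ m) = D.vx .o (g' * D.y i ^ m) := by
  rwa [o_eq, mul_inv_rev, mul_assoc, ← mul_assoc g⁻¹, ← cy a b, inv_mul_cancel_left]

theorem ln {m : ℕ} (b : g⁻¹ * g' ∈ D.K i) (e : D.vx .o (g * D.y i ^ m) = D.vx .o (g' * D.y i ^ m)) :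
    g⁻¹ * g' ∈ D.O := D.lk i m _ b (by simpa only [y, mul_inv_rev, mul_assoc] using o_eq.1 e)

theorem vv_inj (hj : j ≤ D.k i) (hj' : j' ≤ D.k i') (e : D.vv i j g = D.vv i' j' g') :
    (i = i' ∧ j = j' ∧ g⁻¹ * g' ∈ D.K i) ∨ (j = 0 ∨ j = D.k i) ∧ (j' = 0 ∨ j' = D.k i') := by
  unfold vv at e
  split_ifs at e with p q q
  · obtain ⟨e, f⟩ := vx_eq.1 e
    cases e
    exact .inl ⟨rfl, rfl, f⟩
  · cases (vx_eq.1 e).1
  · cases (vx_eq.1 e).1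
  · exact .inr (by omega)

theorem edA (hj : j ≤ D.k i) (hj' : j' ≤ D.k i') (e : D.vv i j g = D.vv i' j' g')
    (f : D.vx .o (g * D.y i ^ j) = D.vx .o (g' * D.y i' ^ j')) :
    (i = i' ∧ j = j' ∧ g⁻¹ * g' ∈ D.K i ∧ g⁻¹ * g' ∈ D.O) ∨
      (j = 0 ∨ j = D.k i) ∧ (j' = 0 ∨ j' = D.k i') :=
  (vv_inj hj hj' e).imp_left (by
    rintro ⟨rfl, rfl, k⟩
    exact ⟨rfl, rfl, k, ln k f⟩)

theorem edC (hj : j < D.k i) (hj' : j' < D.k i') (e : D.vv i (j + 1) g = D.vv i' (j' + 1) g')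
    (f : D.vx .o (g * D.y i ^ j) = D.vx .o (g' * D.y i' ^ j')) :
    (i = i' ∧ j = j' ∧ g⁻¹ * g' ∈ D.K i ∧ g⁻¹ * g' ∈ D.O) ∨ j + 1 = D.k i ∧ j' + 1 = D.k i' :=
  (vv_inj hj hj' e).imp (by
    rintro ⟨rfl, p, k⟩
    obtain rfl : j = j' := by omega
    exact ⟨rfl, rfl, k, ln k f⟩) (by omega)

theorem edD (hj : j < D.k i) (hj' : j' < D.k i') (e : D.vv i j g = D.vv i' j' g')
    (f : D.vv i (j + 1) g = D.vv i' (j' + 1) g') : i = i' ∧ j = j' ∧ g⁻¹ * g' ∈ D.K i := by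
  have := D.k2 i
  refine (vv_inj hj.le hj'.le e).elim id fun p => (vv_inj hj hj' f).elim
    (fun k => ⟨k.1, by omega, k.2.2⟩) fun k => by omega

theorem y_cj (a : x ∈ D.O) (i i' : ι) : (D.y i)⁻¹ * x * D.y i' = (D.b i)⁻¹ * x * D.b i' := by
  simp only [y, mul_inv_rev, mul_assoc]
  rw [← mul_assoc x, ← (D.ca x a).eq, mul_assoc, inv_mul_cancel_left]

theorem edE (h : D.Gi) (e : D.vx .o g = D.vx .o g')
    (f : D.vx .o (g * D.y i) = D.vx .o (g' * D.y i')) : i = i' ∧ g⁻¹ * g' ∈ D.K i := by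
  have p : (D.b i)⁻¹ * (g⁻¹ * g') * D.b i' ∈ D.O := by
    rw [← y_cj (o_eq.1 e)]
    simpa only [mul_inv_rev, mul_assoc] using o_eq.1 f
  exact (h.c (inv_mem (D.bK i)) (D.bK i') (o_eq.1 e) (inv_mem p) (mul_inv_cancel _)).resolve_left
    fun k => D.bO i (inv_mem_iff.1 k)

end Pool.Agent.Lib.MP_35cce7_an.Rm.Rv
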