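import Pool.Agent.Lib.MP_35cce7_an.Rm.G
import Pool.Agent.Lib.MP_5d3e93_al.At.EvL

/-! The links of the triangle complex have no cycle of length four. -/

namespace Pool.Agent.Lib.MP_35cce7_an.Rm.Rv

variable {G ι : Type} [Group G] {D : Rv G ι} {w a b c e : D.V}

variable (D) in
/-- Triangles with an edge on a fixed line. -/
def T1 (x y z : D.V) : Prop :=
  ∃ g i j, j < D.k i ∧ x = D.vv i j g ∧ y = D.vx .o (g * D.y i ^ j) ∧ z = D.vv i (j + 1) g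

variable (D) in
/-- Triangles with a corner on a fixed line. -/
def T2 (x y z : D.V) : Prop :=
  ∃ g i j, j < D.k i ∧ x = D.vx .o (g * D.y i ^ j) ∧ y = D.vv i (j + 1) g ∧
    z = D.vx .o (g * D.y i ^ (j + 1))

theorem vAA (h : D.Gi) : D.T1 w a b → D.T1 w c b → D.T1 w c e → D.T1 w a e → a = c ∨ b = e := by
  rintro ⟨g1, i, j, l1, rfl, rfl, rfl⟩ ⟨g2, _, _, l2, w2, rfl, b2⟩ ⟨g3, i', j', l3, w3, c3, rfl⟩
    ⟨g4, _, _, l4, w4, a4, e4⟩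
  obtain ⟨rfl, rfl, k1⟩ := edD l1 l2 w2 b2
  obtain ⟨rfl, rfl, k3⟩ := edD l3 l4 (w3.symm.trans w4) e4
  obtain ⟨rfl, rfl, k, -⟩ | p := edA l1.le l3.le (w2.symm.trans w3) c3
  · exact .inr (b2.trans (vvK l1 k))
  obtain rfl : j = 0 := by omega
  obtain rfl : j' = 0 := by omega
  simp only [pow_zero, mul_one] at *
  obtain k | ⟨rfl, k⟩ := h.c k1 k3 (o_eq.1 c3) (o_eq.1 a4.symm) (by group)
  exacts [.inl (o_eq.2 k), .inr (b2.trans (vvK l1 k))]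

theorem a_cj {x : G} (h : x ∈ D.O) : D.a * x * D.a⁻¹ = x := by
  rw [(D.ca x h).eq, mul_inv_cancel_right]

theorem top {i j} {g g' : G} (p : j + 1 = D.k i) (k : g⁻¹ * g' ∈ D.K i) :
    D.a⁻¹ * ((g * D.y i ^ j)⁻¹ * (g' * D.y i ^ j)) * D.a ∈ D.K i := by
  have := (cz k).eq
  rw [← p, pow_succ] at this
  rw [show D.a⁻¹ * ((g * D.y i ^ j)⁻¹ * (g' * D.y i ^ j)) * D.a = D.b i * (g⁻¹ * g') * (D.b i)⁻¹ by
    rw [show (g * D.y i ^ j)⁻¹ * (g' * D.y i ^ j) = D.y i * (g⁻¹ * g') * (D.y i)⁻¹ from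
      mul_left_cancel (a := D.y i ^ j) (by
        rw [← mul_assoc _ (_ * _), ← mul_assoc _ (D.y i), this]; group)]
    simp [y, mul_assoc]]
  exact mul_mem (mul_mem (D.bK i) k) (inv_mem (D.bK i))

theorem vAB (h : D.Gi) : D.T1 w a b → D.T1 w c b → D.T2 e w c → D.T2 e w a → a = c := by
  rintro ⟨g1, i, j, l1, rfl, rfl, rfl⟩ ⟨g2, _, _, l2, w2, rfl, b2⟩ ⟨g3, i3, j3, l3, rfl, w3, c3⟩
    ⟨g4, i4, j4, l4, e4, w4, a4⟩
  obtain ⟨rfl, rfl, k⟩ := edD l1 l2 w2 b2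
  refine oL ?_ k _
  obtain rfl | p := j.eq_zero_or_pos
  · simp only [pow_succ, pow_zero, mul_one, ← mul_assoc] at c3 a4
    generalize g3 * _ ^ j3 = q3, g4 * _ ^ j4 = q4 at *
    have s := o_eq.1 e4
    refine inv_mem_iff.1 (h.m (l := i4) (m := i3) (inv_mem k) (inv_mem s) (inv_mem (o_eq.1 c3))
      (o_eq.1 a4) (.inl ?_))
    rw [← y_cj (inv_mem s)]
    group
  obtain ⟨rfl, rfl, k3⟩ := (vv_inj l1.le l3 w3).resolve_right (by omega)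
  obtain ⟨rfl, q, k4⟩ := (vv_inj l1.le l4 w4).resolve_right (by omega)
  obtain rfl := Nat.succ.inj q
  have a := ln (by simpa [mul_assoc] using mul_mem (inv_mem k) k3) c3
  have b := ln (by simpa [mul_assoc] using mul_mem (inv_mem k3) k4) e4
  simpa [mul_assoc] using mul_mem (ln k4 a4) (inv_mem (mul_mem a b))

theorem vBC (h : D.Gi) : D.T2 b w a → D.T1 c b w → D.T1 c e w → D.T2 e w a → b = e := by
  rintro ⟨g1, i1, j1, l1, b1, w1, rfl⟩ ⟨g2, i, j, l2, rfl, rfl, rfl⟩ ⟨g3, _, _, l3, c3, rfl, w3⟩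
    ⟨g4, i4, j4, l4, e4, w4, a4⟩
  obtain ⟨rfl, rfl, k⟩ := edD l2 l3 c3 w3
  by_cases p : j + 1 = D.k i
  · simp only [pow_succ, ← mul_assoc] at a4
    generalize g1 * _ ^ j1 = q1, g4 * _ ^ j4 = q4 at *
    have r := o_eq.1 b1
    have s := o_eq.1 e4
    have u := inv_mem_iff.1 (h.m (l := i1) (m := i4) (inv_mem (top p k)) (o_eq.1 a4) (inv_mem s) r
      (.inr (by
        rw [← (D.ca _ (inv_mem s)).inv_mul_cancel, ← (D.ca _ r).inv_mul_cancel]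
        simp only [y]
        group)))
    rw [← a_cj u] at u
    exact o_eq.2 (by simpa [mul_assoc] using u)
  obtain ⟨rfl, q, k1⟩ := (vv_inj l2 l1 w1).resolve_right (by omega)
  obtain rfl := Nat.succ.inj q
  obtain ⟨rfl, q, k4⟩ := (vv_inj l2 l4 w4).resolve_right (by omega)
  obtain rfl := Nat.succ.inj q
  refine oL ?_ k _
  have a := ln (by simpa [mul_assoc] using mul_mem (inv_mem k1) k4) a4
  have b := ln (by simpa [mul_assoc] using mul_mem (inv_mem k) k4) e4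
  simpa [mul_assoc] using mul_mem (mul_mem (ln k1 b1) a) (inv_mem b)

theorem vBB (h : D.Gi) : D.T2 b w a → D.T2 b w c → D.T2 e w c → D.T2 e w a → a = c ∨ b = e := by
  rintro ⟨g1, i1, j1, -, rfl, -, rfl⟩ ⟨g2, i2, j2, -, b2, -, rfl⟩ ⟨g3, i3, j3, -, rfl, -, c3⟩
    ⟨g4, i4, j4, -, e4, -, a4⟩
  simp only [pow_succ, ← mul_assoc] at *
  generalize g1 * _ ^ j1 = q1, g2 * _ ^ j2 = q2, g3 * _ ^ j3 = q3, g4 * _ ^ j4 = q4 at *
  have p := o_eq.1 b2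
  have s := o_eq.1 e4
  obtain k | k := h.a (i := i2) (m := i3) (l := i4) (i' := i1) (o_eq.1 c3) s (o_eq.1 a4.symm) p (by
    rw [← (D.ca _ s).inv_mul_cancel, ← (D.ca _ p).inv_mul_cancel]
    simp only [y]
    group)
  · refine .inr (b2.trans (o_eq.2 ?_))
    rw [← a_cj k] at k
    simpa [y, mul_assoc] using k
  · rw [← y_cj p] at k
    exact .inl (o_eq.2 (by simpa [mul_assoc] using k))

theorem unc {i j} {g g' : G} (e : D.vx .o (g * D.y i ^ j) = D.vx .o (g' * D.y i ^ j))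
    (k : (g * D.y i ^ j)⁻¹ * (g' * D.y i ^ j) ∈ D.K i) : g⁻¹ * g' ∈ D.K i := by
  rwa [mul_right_cancel (a := g⁻¹ * g') (b := D.y i ^ j) (by rw [← cy (o_eq.1 e) k]; group)]

theorem vCC (h : D.Gi) : D.T1 a b w → D.T1 c b w → D.T1 c e w → D.T1 a e w → a = c ∨ b = e := by
  rintro ⟨g1, i, j, l1, rfl, rfl, rfl⟩ ⟨g2, i', j', l2, rfl, b2, w2⟩ ⟨g3, _, _, l3, c3, rfl, w3⟩
    ⟨g4, _, _, l4, a4, e4, w4⟩
  obtain ⟨rfl, rfl, k2⟩ := edD l2 l3 c3 (w2.symm.trans w3)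
  obtain ⟨rfl, rfl, k4⟩ := edD l4 l1 a4.symm w4.symm
  obtain ⟨rfl, rfl, k, -⟩ | p := edC l1 l2 w2 b2
  · exact .inl (vvK l1.le k)
  have r := o_eq.1 b2
  have s := o_eq.1 e4
  obtain k | ⟨rfl, k⟩ := h.c (top p.2 k2) (top p.1 k4) s r (by
    rw [← (D.ca _ s).inv_mul_cancel, ← (D.ca _ r).inv_mul_cancel]
    group)
  · refine .inr (b2.trans (o_eq.2 ?_))
    rw [← a_cj k] at k
    simpa [mul_assoc] using k
  · obtain rfl := Nat.succ.inj (p.1.trans p.2.symm)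
    exact .inl (a4.trans ((c3.trans (vvK l1.le (unc e4 k))).symm))

theorem h_o {g g' : G} (e : D.vx .o g = D.vx .o g') :
    D.vx .h g = D.vx .h g' ∧ D.vx .h (g * D.a) = D.vx .h (g' * D.a) := by
  have p := o_eq.1 e
  refine ⟨vx_eq.2 ⟨rfl, D.OH p⟩, vx_eq.2 ⟨rfl, D.OH ?_⟩⟩
  rwa [mul_inv_rev, mul_assoc, ← mul_assoc g⁻¹, (D.ca _ p).inv_mul_cancel_assoc]

theorem vv_a {i j} (g : G) (p : j + 1 = D.k i) :
    D.vv i (j + 1) g = D.vx .h (g * D.y i ^ j * D.a) := by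
  rw [p, vv_top, ← p, pow_succ]
  exact (vx_eq.2 ⟨rfl, by simpa [y, mul_assoc, sb] using D.KH i (D.bK i)⟩).symm

theorem oAA : D.T2 w a b → D.T2 w c b → D.T2 w c e → D.T2 w a e → a = c ∨ b = e := by
  rintro ⟨g1, i1, j1, l1, rfl, rfl, rfl⟩ ⟨g2, i2, j2, l2, w2, rfl, b2⟩
    ⟨g3, i3, j3, l3, w3, c3, rfl⟩ ⟨g4, i4, j4, l4, w4, a4, e4⟩
  obtain ⟨rfl, rfl, k, k'⟩ | p := edC l2 l3 c3 (w2.symm.trans w3)
  · exact .inr (b2.trans (oL k' k _))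
  obtain ⟨rfl, rfl, k, k'⟩ | q := edC l1 l4 a4 w4
  · exact .inr ((oL k' k _).trans e4.symm)
  rw [vv_a _ q.1, vv_a _ p.1]
  exact .inl (h_o w2).2

theorem oCC : D.T2 a b w → D.T2 c b w → D.T2 c e w → D.T2 a e w → a = c ∨ b = e := by
  rintro ⟨g1, i1, j1, l1, rfl, rfl, rfl⟩ ⟨g2, i2, j2, l2, rfl, b2, w2⟩
    ⟨g3, i3, j3, l3, c3, rfl, w3⟩ ⟨g4, i4, j4, l4, a4, e4, w4⟩
  obtain ⟨rfl, p, k, k'⟩ | p := edA l1 l2 b2 w2
  · cases p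
    exact .inl (oL k' k _)
  obtain ⟨rfl, q, k, k'⟩ | q := edA l4 l3 e4.symm (w4.symm.trans w3)
  · cases q
    exact .inl (a4.trans ((oL k' k _).trans c3.symm))
  rw [show j1 + 1 = D.k i1 by omega, show j3 + 1 = D.k i3 by omega] at w3 ⊢
  rw [vv_top, vv_top]
  exact .inr (h_o w3).1

theorem oBB : D.T1 b w a → D.T1 b w c → D.T1 e w c → D.T1 e w a → a = c ∨ b = e := by
  rintro ⟨g1, i1, j1, l1, rfl, rfl, rfl⟩ ⟨g2, i2, j2, l2, b2, w2, rfl⟩ -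
    ⟨g4, i4, j4, l4, rfl, w4, a4⟩
  obtain ⟨rfl, rfl, k, -⟩ | p := edA l1.le l2.le b2 w2
  · exact .inl (vvK l1 k)
  obtain ⟨rfl, rfl, k, -⟩ | q := edC l1 l4 a4 w4
  · exact .inr (vvK l1.le k)
  have := D.k2 i1
  omega

theorem oAB (h : D.Gi) : D.T2 w a b → D.T2 w c b → D.T1 e w c → D.T1 e w a → a = c := by
  rintro ⟨g1, i1, j1, l1, rfl, rfl, rfl⟩ ⟨g2, i2, j2, l2, w2, rfl, b2⟩
    ⟨g3, i3, j3, l3, rfl, w3, c3⟩ ⟨g4, i4, j4, l4, e4, w4, a4⟩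
  obtain ⟨rfl, rfl, k, -⟩ | p := edA l3.le l4.le e4 (w3.symm.trans w4)
  · exact a4.trans ((vvK l3 k).symm.trans c3.symm)
  have := D.k2 i3
  have := D.k2 i4
  have := edC l2 l3 c3 (w2.symm.trans w3)
  have := edC l1 l4 a4 w4
  obtain rfl : j1 = 0 := by omega
  obtain rfl : j2 = 0 := by omega
  simp only [zero_add, pow_zero, pow_one, mul_one] at w2 b2
  obtain ⟨rfl, k⟩ := edE h w2 b2
  exact vvK l1 k

theorem oBC (h : D.Gi) : D.T1 b w a → D.T2 c b w → D.T2 c e w → D.T1 e w a → b = e := by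
  rintro ⟨g1, i1, j1, l1, b1, w1, rfl⟩ ⟨g2, i2, j2, l2, rfl, rfl, rfl⟩
    ⟨g3, i3, j3, l3, c3, rfl, w3⟩ ⟨g4, i4, j4, l4, e4, w4, a4⟩
  obtain ⟨rfl, rfl, k, -⟩ | p := edC l1 l4 a4 (w1.symm.trans w4)
  · exact b1.trans ((vvK l1.le k).trans e4.symm)
  have := D.k2 i1
  have := D.k2 i4
  obtain ⟨rfl, q, -⟩ := (edA l2 l1.le b1 w1).resolve_right (by omega)
  obtain ⟨rfl, r, -⟩ := (edA l3 l4.le e4 (w3.symm.trans w4)).resolve_right (by omega)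
  simp only [pow_succ, ← mul_assoc] at w3
  obtain ⟨rfl, k⟩ := edE h c3 w3
  obtain rfl : j2 = j3 := by omega
  exact vvK l2 (unc c3 k)

theorem vv_ty (i j) (g : G) : (D.vv i j g).1 ≠ .o ∧ (D.vv i j g).1 ≠ .f1 ∧ (D.vv i j g).1 ≠ .f2 := by
  unfold vv
  split_ifs <;> simp [vx]

theorem leaf (k : w.1 = .f1 ∨ w.1 = .f2) (h : D.Tt w a b) :
    (∃ g, w = D.vx .f1 g ∧ a = D.vx .h g ∧ b = D.vx .o g) ∨
      ∃ g, w = D.vx .f2 g ∧ a = D.vx .o g ∧ b = D.vx .h (g * D.a) := by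
  rcases h with h | h | h <;>
  rcases h with ⟨g, i, j, -, rfl, rfl, rfl⟩ | ⟨g, i, j, -, rfl, rfl, rfl⟩ | ⟨g, rfl, rfl, rfl⟩ |
    ⟨g, rfl, rfl, rfl⟩ <;>
  first
  | exact .inl ⟨g, rfl, rfl, rfl⟩
  | exact .inr ⟨g, rfl, rfl, rfl⟩
  | exact (k.elim (vv_ty ..).2.1 (vv_ty ..).2.2).elim
  | rcases k with k | k <;> cases k

theorem leaf2 (k : w.1 = .f1 ∨ w.1 = .f2) (h : D.Tt w a b) (h' : D.Tt w c e) : a = c ∧ b = e := by
  obtain ⟨g, rfl, rfl, rfl⟩ | ⟨g, rfl, rfl, rfl⟩ := leaf k h <;>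
  obtain ⟨g', p, rfl, rfl⟩ | ⟨g', p, rfl, rfl⟩ := leaf k h'
  · exact ⟨(h_o (o_eq.2 (vx_eq.1 p).2)).1, o_eq.2 (vx_eq.1 p).2⟩
  · cases (vx_eq.1 p).1
  · cases (vx_eq.1 p).1
  · exact ⟨o_eq.2 (vx_eq.1 p).2, (h_o (o_eq.2 (vx_eq.1 p).2)).2⟩

theorem Tt.rot (h : D.Tt w a b) : D.Tt a b w :=
  h.elim (fun h => .inr (.inr h)) fun h => h.elim .inl fun h => .inr (.inl h)

theorem Tb.st (h : D.Tb w a b) (k : ¬ (b.1 = .f1 ∨ b.1 = .f2)) :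
    w.1 ≠ .o ∧ a.1 = .o ∧ b.1 ≠ .o ∧ D.T1 w a b ∨ w.1 = .o ∧ a.1 ≠ .o ∧ b.1 = .o ∧ D.T2 w a b := by
  rcases h with h | h | ⟨g, rfl, rfl, rfl⟩ | ⟨g, rfl, rfl, rfl⟩
  · obtain ⟨g, i, j, -, rfl, rfl, rfl⟩ := id h
    exact .inl ⟨(vv_ty ..).1, rfl, (vv_ty ..).1, h⟩
  · obtain ⟨g, i, j, -, rfl, rfl, rfl⟩ := id h
    exact .inr ⟨rfl, (vv_ty ..).1, rfl, h⟩
  exacts [(k (.inl rfl)).elim, (k (.inr rfl)).elim]

theorem l4 (h : D.Gi) : D.L4 := by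
  intro w a b c e h1 h2 h3 h4
  by_contra! n
  have kw := fun k => n.1 (leaf2 k h1 h2).1
  have ka := fun k => n.2 (leaf2 k h1.rot h4.rot).1
  have kc := fun k => n.2 (leaf2 k h2.rot h3.rot).1
  have kb := fun k => n.1 (leaf2 k h1.rot.rot h2.rot.rot).2
  have ke := fun k => n.1 (leaf2 k h4.rot.rot h3.rot.rot).2
  refine (?_ : a = c ∨ b = e).elim n.1 n.2
  let R := fun x z : D.V => D.Tt w x z ∧ ¬ (x.1 = .f1 ∨ x.1 = .f2) ∧ ¬ (z.1 = .f1 ∨ z.1 = .f2)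
  by_cases o : w.1 = .o
  · refine MP_5d3e93_al.At.Ev.ab4 (p := (·.1 ≠ .o)) (A := D.T2 w) (B := fun x z => D.T1 z w x)
      (C := fun x z => D.T2 x z w) oAA (oAB h) oBB (oBC h) oCC (R := R) ?_ ⟨h1, ka, kb⟩
      ⟨h2, kc, kb⟩ ⟨h3, kc, ke⟩ ⟨h4, ka, ke⟩
    rintro x z ⟨t | t | t, p, q⟩
    exacts [by have := t.st q; tauto, by have := t.st kw; tauto, by have := t.st p; tauto]
  · refine MP_5d3e93_al.At.Ev.ab4 (p := (·.1 = .o)) (A := D.T1 w) (B := fun x z => D.T2 z w x)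
      (C := fun x z => D.T1 x z w) (vAA h) (vAB h) (vBB h) (vBC h) (vCC h) (R := R) ?_ ⟨h1, ka, kb⟩
      ⟨h2, kc, kb⟩ ⟨h3, kc, ke⟩ ⟨h4, ka, ke⟩
    rintro x z ⟨t | t | t, p, q⟩
    exacts [by have := t.st q; tauto, by have := t.st kw; tauto, by have := t.st p; tauto]

end Pool.Agent.Lib.MP_35cce7_an.Rm.Rv
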