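import Pool.Agent.Lib.MP_35cce7_an.Rm.S

/-! What the lattice of the triangle complex says about the translating generator. -/

namespace Pool.Agent.Lib.MP_35cce7_an.Rm

open Pool.Agent.Lib.MP_5d3e93_al.At

namespace Rv

variable {G ι : Type} [Group G] {D : Rv G ι}

theorem vv_h {i : ι} {j : ℕ} {g u : G} (e : D.vx .h u = D.vv i j g) :
    ¬ (0 < j ∧ j < D.k i) ∧ D.vx .h u = D.vx .h (g * D.y i ^ j) := by
  unfold vv at e
  split_ifs at e with p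
  · cases (vx_eq.1 e).1
  · exact ⟨p, e⟩

theorem vv_o {i : ι} {j : ℕ} {g u : G} : D.vx .o u ≠ D.vv i j g := by
  unfold vv
  split_ifs <;> exact fun e => by cases (vx_eq.1 e).1

theorem out_h {u : G} {m z : D.V} (t : D.Tt (D.vx .h u) m z) :
    (∃ g, D.vx .h u = D.vx .h g ∧ m = D.vx .o g) ∨
    (∃ g i j p, j + 1 = D.k i ∧ D.vx .h u = D.vv i (D.k i) g ∧ m = D.vx (.w i j p) g) ∨
      ∃ g, D.vx .h u = D.vx .h (g * D.a) ∧ m = D.vx .f2 g := by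
  rcases t with (⟨g, i, j, p, a, b, c⟩ | ⟨g, i, j, p, a, b, c⟩ | ⟨g, a, b, c⟩ | ⟨g, a, b, c⟩) |
    (⟨g, i, j, p, a, b, c⟩ | ⟨g, i, j, p, a, b, c⟩ | ⟨g, a, b, c⟩ | ⟨g, a, b, c⟩) |
    ⟨g, i, j, p, a, b, c⟩ | ⟨g, i, j, p, a, b, c⟩ | ⟨g, a, b, c⟩ | ⟨g, a, b, c⟩
  · exact .inl ⟨_, (vv_h a).2, b⟩
  · cases (vx_eq.1 a).1
  · exact .inl ⟨_, a, b⟩
  · cases (vx_eq.1 a).1
  · have k := (vv_h c).1
    have k2 := D.k2 i
    have e : j + 1 = D.k i := by omega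
    exact .inr (.inl ⟨g, i, j, ⟨by omega, p⟩, e, e ▸ c, a.trans (dif_pos _)⟩)
  · cases (vx_eq.1 c).1
  · cases (vx_eq.1 c).1
  · cases (vx_eq.1 c).1
  · cases (vx_eq.1 b).1
  · exact .inl ⟨_, (vv_h b).2, c⟩
  · cases (vx_eq.1 b).1
  · exact .inr (.inr ⟨g, b, c⟩)

theorem in_one {u v : G} {m z z' : D.V} (s : D.Tt (D.vx .h u) m z) (t : D.Tt (D.vx .h v) m z') :
    D.vx .h u = D.vx .h v := by
  rcases out_h s with ⟨g, a, rfl⟩ | ⟨g, i, j, p, e, a, rfl⟩ | ⟨g, a, rfl⟩ <;>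
  rcases out_h t with ⟨g', a', b⟩ | ⟨g', i', j', p', e', a', b⟩ | ⟨g', a', b⟩ <;>
  obtain ⟨⟨⟩, k⟩ := vx_eq.1 b <;> rw [a, a']
  · exact vx_eq.2 ⟨rfl, D.OH k⟩
  · rw [← vv_K le_rfl g k, mul_inv_cancel_left]
  · refine vx_eq.2 ⟨rfl, ?_⟩
    rw [mul_inv_rev, mul_assoc, ← mul_assoc g⁻¹, ← (D.ca _ k).eq, inv_mul_cancel_left]
    exact D.OH k

theorem no_hh {u v : G} {z : D.V} : ¬ D.Tt (D.vx .h u) (D.vx .h v) z := fun t => by
  rcases out_h t with ⟨g, -, b⟩ | ⟨g, i, j, p, -, -, b⟩ | ⟨g, -, b⟩ <;> cases (vx_eq.1 b).1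

theorem no_oo {u : G} {z : D.V} : ¬ D.Tt (D.vx .o (u * D.a)) (D.vx .o u) z := fun t => by
  rcases t with (⟨g, i, j, p, a, b, c⟩ | ⟨g, i, j, p, a, b, c⟩ | ⟨g, a, b, c⟩ | ⟨g, a, b, c⟩) |
    (⟨g, i, j, p, a, b, c⟩ | ⟨g, i, j, p, a, b, c⟩ | ⟨g, a, b, c⟩ | ⟨g, a, b, c⟩) |
    ⟨g, i, j, p, a, b, c⟩ | ⟨g, i, j, p, a, b, c⟩ | ⟨g, a, b, c⟩ | ⟨g, a, b, c⟩
  · exact vv_o a
  · exact vv_o b
  · cases (vx_eq.1 a).1
  · cases (vx_eq.1 b).1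
  · exact vv_o a
  · have e : _ ∈ D.O := (vx_eq.1 a).2
    have f : _ ∈ D.O := (vx_eq.1 c).2
    rw [pow_succ, ← mul_assoc g] at f
    generalize g * _ ^ j = q at e f
    rw [show (u * D.a)⁻¹ * (q * D.y i) = D.a⁻¹ * (u⁻¹ * q) * D.a * D.b i by
      simp [y, mul_assoc], (D.ca _ e).inv_mul_cancel] at f
    exact D.bO i ((mul_mem_cancel_left e).1 f)
  · cases (vx_eq.1 a).1
  · cases (vx_eq.1 c).1
  · exact vv_o c
  · exact vv_o b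
  · cases (vx_eq.1 c).1
  · cases (vx_eq.1 b).1

variable (D) in
/-- The axis of the translating generator. -/
def ax : ℕ → G → List D.V
  | 0, _ => []
  | n + 1, g => D.vx .o g :: D.vx .h (g * D.a) :: ax n (g * D.a)

variable (h : D.L4)

theorem ed_ho (g : G) : (tc h).Ed (D.vx .h g) (D.vx .o g) :=
  ⟨_, .inl (.inr (.inr (.inl ⟨g, rfl, rfl, rfl⟩)))⟩

theorem ed_oh (g : G) : (tc h).Ed (D.vx .o g) (D.vx .h (g * D.a)) :=
  ⟨_, .inl (.inr (.inr (.inr ⟨g, rfl, rfl, rfl⟩)))⟩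

theorem ax_val (n : ℕ) : ∀ g, TcV (tc h) (D.vx .h g :: D.ax n g) (D.vx .h (g * D.a ^ n)) ∧
    TcN (tc h) (D.vx .h g :: D.ax n g) ∧ (D.ax n g).length = 2 * n := by
  induction n with
  | zero => exact fun g => ⟨by simpa [ax] using .one _, trivial, rfl⟩
  | succ n ih =>
    intro g
    obtain ⟨a, b, c⟩ := ih (g * D.a)
    rw [mul_assoc, ← pow_succ'] at a
    refine ⟨.cons (ed_ho h g) (.cons (ed_oh h g) a),
      ⟨fun t => no_hh ((tc h).rot ((tc h).rot t)), ?_⟩, by simp [ax, c]; omega⟩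
    cases n with
    | zero => trivial
    | succ n => exact ⟨fun t => no_oo ((tc h).rot ((tc h).rot t)), b⟩

include h

theorem out_A : EvA D.H D.a := by
  intro p hp q hq r hr s hs e
  have : Nonempty D.V := ⟨D.vx .h 1⟩
  let O := tcOb.{0} (tc_sc h) (tc_hw h) (tc_hc h) (MonoidHom.id G) (D.ε ^ 2) col_smul
  have v : ∀ {g g' : G}, g⁻¹ * g' ∈ D.H → D.vx .h g = D.vx .h g' := fun k => vx_eq.2 ⟨rfl, k⟩
  have pa : ∀ {g g' u : G}, g⁻¹ * u ∈ D.H → (u * D.a)⁻¹ * g' ∈ D.H →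
      TcP (tc h) 2 (D.vx .h g) (D.vx .h g') := fun a b => by
    rw [v a, ← v b]
    exact .succ (ed_ho h _) (.succ (ed_oh h _) (.zero _))
  have c0 : (tc h).col (D.vx .h 1) = ((0 : ℤ) : ZMod 3) := by
    change D.col _ = _
    simp [col_vx, off]
  have p1 := pa (g := 1) (g' := D.a) (u := 1) (by simp) (by simp)
  have p2 := pa (g := 1) (g' := D.a * p * D.a⁻¹ * q * D.a) (u := s⁻¹) (by simpa using hs) (by
    rw [eq_mul_inv_of_mul_eq (eq_mul_inv_of_mul_eq (eq_inv_of_mul_eq_one_left e)), inv_inv,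
      inv_mul_cancel_left]
    exact inv_mem hr)
  have p3 := pa (g := D.a * p * D.a⁻¹) (g' := D.a) (u := D.a * p * D.a⁻¹)
    (by rw [inv_mul_cancel]; exact one_mem _) (by simpa using hp)
  have p4 := pa (g := D.a * p * D.a⁻¹) (g' := D.a * p * D.a⁻¹ * q * D.a)
    (u := D.a * p * D.a⁻¹ * q) (by rwa [inv_mul_cancel_left])
    (by rw [inv_mul_cancel]; exact one_mem _)
  have c1 : (tc h).col (D.vx .h D.a) = ((2 : ℤ) : ZMod 3) := by rw [p1.col, c0]; simp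
  have c2 : (tc h).col (D.vx .h (D.a * p * D.a⁻¹)) = ((0 : ℤ) : ZMod 3) := by
    have := p3.col
    rw [c1] at this
    simpa using this.symm
  have c3 : (tc h).col (D.vx .h (D.a * p * D.a⁻¹ * q * D.a)) = ((2 : ℤ) : ZMod 3) := by
    rw [p2.col, c0]; simp
  obtain ⟨⟨m, n, c⟩, ⟨i, a1, b1⟩, ⟨j, a2, b2⟩, ⟨k, a3, b3⟩, ⟨l, a4, b4⟩⟩ := O.rz
    (a := ⟨_, 0, c0⟩) (b := ⟨_, 0, c2⟩) (c := ⟨_, 2, c1⟩) (d := ⟨_, 2, c3⟩)
    ⟨2, rfl, p1⟩ ⟨2, rfl, p2⟩ ⟨2, rfl, p3⟩ ⟨2, rfl, p4⟩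
  simp only at a1 a2 a3 a4 b1 b2 b3 b4
  obtain rfl : i = j := by omega
  obtain rfl : k = l := by omega
  have z : ∀ {x y}, TcP (tc h) 0 x y → x = y := fun a => by cases a; rfl
  obtain ⟨rfl, -⟩ | ⟨rfl, -⟩ | ⟨-, rfl⟩ : i = 0 ∧ k = 2 ∨ i = 1 ∧ k = 1 ∨ i = 2 ∧ k = 0 := by
    omega
  · exact .inl (by simpa [sb] using (vx_eq.1 ((z b1).trans (z b2).symm)).2)
  · exact .inl (by
      simpa [sb] using (vx_eq.1 (in_one (TcP.one.1 b1).choose_spec (TcP.one.1 b2).choose_spec)).2)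
  · have := (vx_eq.1 ((z b3).symm.trans (z b4))).2
    simp only [sb, ← mul_assoc, inv_mul_cancel, one_mul] at this
    rw [mul_assoc p, mul_assoc p] at this
    exact .inr ((D.H.mul_mem_cancel_left hp).1 this)

theorem out_N : EvN D.H D.O D.a := by
  have key : ∀ (m : ℕ) c, c ∈ D.H → D.a ^ (m + 1) * c * (D.a ^ (m + 1))⁻¹ ∈ D.H →
      D.a ^ (m + 1) * c * (D.a ^ (m + 1))⁻¹ ∈ D.O := fun m c a b => by
    obtain ⟨u, v, w⟩ := ax_val h (m + 1) 1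
    obtain ⟨u', -, w'⟩ := ax_val h (m + 1) (D.a ^ (m + 1) * c * (D.a ^ (m + 1))⁻¹)
    rw [inv_mul_cancel_right, ← (vx_eq (τ := .h) (g := 1)
      (g' := D.a ^ (m + 1) * c * (D.a ^ (m + 1))⁻¹)).2 ⟨rfl, by simpa [sb] using b⟩,
      ← (vx_eq (τ := .h) (g := 1 * D.a ^ (m + 1)) (g' := D.a ^ (m + 1) * c)).2
        ⟨rfl, by simpa [sb] using a⟩] at u'
    have := v.eq (tc_eq (tc_sc h) (tc_hw h) u u' (w.trans w'.symm))
    simpa [sb] using (vx_eq.1 (List.cons.inj (List.cons.inj this).2).1).2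
  intro n hn c a b
  obtain ⟨m, rfl | rfl⟩ : ∃ m : ℕ, n = (m + 1 : ℕ) ∨ n = -(m + 1 : ℕ) := ⟨n.natAbs - 1, by omega⟩
  · rw [zpow_natCast] at b
    have k := key m c a b
    have := ((D.ca _ k).pow_left (m + 1)).eq
    rw [inv_mul_cancel_right, mul_right_inj] at this
    rwa [this] at k
  · rw [zpow_neg, zpow_natCast, inv_inv] at b
    simpa [mul_assoc] using key m _ b (by simpa [mul_assoc] using a)

end Rv

end Pool.Agent.Lib.MP_35cce7_an.Rm
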