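import Pool.Agent.Lib.MP_35cce7_an.Rm.L
import Pool.Agent.Lib.MP_35cce7_an.Rm.N
import Pool.Agent.Lib.MP_5d3e93_al.At.EvM
import Pool.Agent.Lib.MP_5d3e93_al.At.OnA

/-! A generator with even labels whose neighbours satisfy no short relation. -/

namespace Pool.Agent.Lib.MP_35cce7_an.Rm

open Pool.Agent.Lib.MP_5d3e93_al.At

theorem fr {G : Type} [Group G] {P : Subgroup G} {x y z w r s t u : G}
    (e : x * r * y * s * z * t * w * u = 1) (r1 : r ∈ P) (s1 : s ∈ P) (t1 : t ∈ P) (u1 : u ∈ P) :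
    (y ∈ P → z ∈ P → w ∈ P → x ∈ P) ∧ (x ∈ P → z ∈ P → w ∈ P → y ∈ P) ∧
      (x ∈ P → y ∈ P → w ∈ P → z ∈ P) ∧ (x ∈ P → y ∈ P → z ∈ P → w ∈ P) := by
  have h : x * r * y * s * z * t * w * u ∈ P := e ▸ P.one_mem
  rw [mul_mem_cancel_right u1] at h
  refine ⟨fun a b c => ?_, fun a b c => ?_, fun a b c => ?_, fun a b c => ?_⟩
  · rwa [mul_mem_cancel_right c, mul_mem_cancel_right t1, mul_mem_cancel_right b,
      mul_mem_cancel_right s1, mul_mem_cancel_right a, mul_mem_cancel_right r1] at h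
  · rwa [mul_mem_cancel_right c, mul_mem_cancel_right t1, mul_mem_cancel_right b,
      mul_mem_cancel_right s1, mul_mem_cancel_left (mul_mem a r1)] at h
  · rwa [mul_mem_cancel_right c, mul_mem_cancel_right t1,
      mul_mem_cancel_left (mul_mem (mul_mem (mul_mem a r1) b) s1)] at h
  · rwa [mul_mem_cancel_left (mul_mem (mul_mem (mul_mem (mul_mem (mul_mem a r1) b) s1) c) t1)] at h

variable {B : Type} {M : CoxeterMatrix B} {a b : B} {Y C : Set B}

theorem par_one {x : Ar M} {S : Set B} (h : x ∈ par M S) (h' : x ∈ par M Y) (e : Disjoint S Y) :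
    x = 1 := by
  have := par_inf h h'
  rw [e.inter_eq] at this
  simpa [par] using this

theorem sup (h : b ∉ Y) {n : ℤ} (e : gn M b ^ n ∈ par M Y) : n = 0 := by
  have := congrArg (fun x => (deg M x).toAdd) (par_one (zpow_mem (gn_mem (Set.mem_singleton b)) n) e
    (Set.disjoint_singleton_left.2 h))
  simpa [deg] using this

theorem sup1 (h : b ∉ Y) : gn M b ∉ par M Y := fun e =>
  one_ne_zero (sup h (n := 1) (by rwa [zpow_one]))

theorem sgn (h : b ∉ Y) {p q : Ar M} (hp : p ∈ par M Y) (hq : q ∈ par M Y) :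
    gn M b * p ≠ q * (gn M b)⁻¹ := by
  intro e
  let E := subE M (· ∈ ({b} : Set B))
  have z : ∀ {g}, g ∈ par M Y → ∃ w, ∀ α, E.act g (E.o, α) = (w, α) := fun {g} hg => by
    obtain ⟨w, β, k⟩ := E.act_right g E.o
    have := (E.act_par hg).2
    rw [k, mul_one] at this
    obtain rfl : β = 1 := E.hom_inj ((par_one (on_rng.le ⟨β, rfl⟩)
      (par_mono Set.inter_subset_right this) (Set.disjoint_singleton_left.2 h)).trans
        (map_one _).symm)
    exact ⟨w, by simpa using k⟩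
  obtain ⟨w, k⟩ := z hp
  obtain ⟨w', k'⟩ := z hq
  have := congrArg (fun g => (deg _ (E.act g (E.o, 1)).2).toAdd) e
  simp only [map_mul, Equiv.Perm.mul_apply, k] at this
  rw [show (gn M b)⁻¹ = E.hom (gn _ ⟨b, rfl⟩)⁻¹ by rw [map_inv, E.hom_gn]; rfl, E.act_hom, k',
    Emb.act, alift_gn] at this
  change (deg _ (E.stp _ b id (w, 1)).2).toAdd = _ at this
  unfold Emb.stp at this
  split_ifs at this <;> simp [deg] at this

/-- No short relation between `b` and the parabolic subgroup of `C`. -/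
structure Good (M : CoxeterMatrix B) (b : B) (C : Set B) : Prop where
  n : ∀ n m : ℤ, ∀ c ∈ par M C, ∀ d ∈ par M C, gn M b ^ n * c * gn M b ^ m * d = 1 →
    n = 0 ∨ c ∈ par M {c ∈ C | M b c = 2}
  a : EvA (par M C) (gn M b)
  m : ∀ n : ℤ, ∀ r ∈ par M C, ∀ s ∈ par M C, ∀ t ∈ par M C,
    (gn M b)⁻¹ * r * gn M b * s * gn M b ^ n * t = 1 ∨
      gn M b * r * (gn M b)⁻¹ * s * gn M b ^ n * t = 1 → n = 0

theorem rm_lift (ha : ∀ t, t ≠ a → Even (M a t)) {K : Type} [Group K] (f : B → K)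
    (h1 : ∀ j k, j ≠ a → M a j = 2 * k → (f a * f j) ^ k = (f j * f a) ^ k)
    (h2 : ∀ i j, i ≠ a → j ≠ a → M i j ≠ 0 → alt (M i j) (f i) (f j) = alt (M i j) (f j) (f i)) :
    ∃ φ : Ar M →* K, ∀ s, φ (gn M s) = f s :=
  ⟨alift f fun i j h h0 => by
    by_cases u : i = a
    · subst u
      obtain ⟨k, e⟩ := (ha j h.symm).two_dvd
      rw [e, evm_alt, evm_alt, h1 j k h.symm e]
    by_cases v : j = a
    · subst v
      obtain ⟨k, e⟩ := (ha i h).two_dvd
      rw [M.symmetric, e, evm_alt, evm_alt, h1 i k h e]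
    exact h2 i j u v h0, alift_gn _ _⟩

theorem kd {S : Set B} (hS : ∀ s ∈ S, M b s = 2) {x : Ar M} (hx : x ∈ par M (insert b S)) :
    ∃ n : ℤ, ∃ c ∈ par M S, x = gn M b ^ n * c := by
  refine par_ind (Q := fun x => ∃ n : ℤ, ∃ c ∈ par M S, x = gn M b ^ n * c)
    ⟨0, 1, one_mem _, by simp⟩ ?_ hx
  rintro s (rfl | hs) _ ⟨n, c, h, rfl⟩
  · exact ⟨⟨1 + n, c, h, by group⟩, -1 + n, c, h, by group⟩
  · have := (evm_cm (hS s hs)).zpow_left n
    exact ⟨⟨n, _, mul_mem (gn_mem hs) h, by rw [← mul_assoc, ← this.eq, mul_assoc]⟩,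
      n, _, mul_mem (inv_mem (gn_mem hs)) h, by rw [← mul_assoc, ← this.inv_right.eq, mul_assoc]⟩

theorem rm_str (ha : ∀ t, t ≠ a → Even (M a t)) : ∃ D : Rv (Ar M) {b // 4 ≤ M a b},
    D.H = par M {a}ᶜ ∧ D.O = par M {c | M a c = 2} ∧ D.a = gn M a ∧ ∀ i, D.b i = gn M i.1 ∧
      D.K i = par M (insert i.1 {c | M a c = 2 ∧ M i.1 c = 2}) := by
  classical
  obtain ⟨ε, hε⟩ := rm_lift ha (fun t => if t = a then Multiplicative.ofAdd (1 : ℤ) else 1)
    (fun _ _ _ _ => by rw [mul_comm]) fun i j u v _ => by rw [if_neg u, if_neg v]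
  have n1 : ∀ c, 2 ≤ M a c → c ≠ a := by
    rintro c h rfl
    simp at h
  have n2 : ∀ i : {b // 4 ≤ M a b}, i.1 ≠ a := fun i => n1 _ (by have := i.2; omega)
  have n3 : ∀ (i : {b // 4 ≤ M a b}) c, M a c = 2 → c ≠ i.1 := by
    rintro ⟨i, hi⟩ c h rfl
    omega
  have e2 : ∀ i : {b // 4 ≤ M a b}, M a i.1 = 2 * (M a i.1 / 2) := fun i =>
    (Nat.two_mul_div_two_of_even (ha _ (n2 i))).symm
  refine ⟨{
    H := par M {a}ᶜ
    O := par M {c | M a c = 2}
    K i := par M (insert i.1 {c | M a c = 2 ∧ M i.1 c = 2})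
    a := gn M a
    b i := gn M i.1
    k i := M a i.1 / 2
    ε := ε
    k2 i := by have := i.2; omega
    OH := par_mono fun c h => n1 c h.ge
    KH i := par_mono (Set.insert_subset (n2 i) fun c h => n1 c h.1.ge)
    bK i := gn_mem (Set.mem_insert _ _)
    ca c h := evm_par (fun s hs => evm_cm hs) h
    cb i c h h' := evm_par (fun s hs =>
      evm_cm (hs.2.resolve_left (n3 i s hs.1)).2) (par_inf h h')
    br i := evm_br (e2 i)
    Kd i x hx := ?_
    εa := by simp [hε]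
    εH h hh := evm_eq _ 1 (fun s hs => (hε s).trans (if_neg hs)) hh
    bO i := sup1 fun h => n3 i _ h rfl
    lk i m x hx h := ?_
    gen Q h1 h2 := PresentedGroup.generated_by _ Q fun s => by
      by_cases e : s = a
      exacts [e ▸ h2, h1 (gn_mem e)]
    pres P _ R α h1 h2 := ?_ }, rfl, rfl, rfl, fun _ => ⟨rfl, rfl⟩⟩
  · obtain ⟨n, c, h, rfl⟩ := kd (fun _ h => h.2) hx
    exact ⟨n, c, par_mono (fun _ h => h.1) h, par_mono (Set.subset_insert _ _) h, rfl⟩
  · obtain ⟨n, c, k, rfl⟩ := kd (fun _ h => h.2) hx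
    have k1 := par_mono (T := {c | M a c = 2}) (fun _ h => h.1) k
    have cm : Commute ((gn M a * gn M i.1) ^ m) c :=
      (evm_par (fun s hs => (evm_cm hs.1).mul_left (evm_cm hs.2)) k).pow_left m
    rw [mul_assoc, mul_assoc, ← cm.eq, ← mul_assoc, ← mul_assoc, mul_mem_cancel_right k1] at h
    have y1 : (gn M a * gn M i.1) ^ m ∈ par M {a, i.1} :=
      pow_mem (mul_mem (gn_mem (by simp)) (gn_mem (by simp))) m
    have := congrArg (fun x => (deg M x).toAdd) (par_one (mul_mem (mul_mem (inv_mem y1)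
      (zpow_mem (gn_mem (by simp)) n)) y1) h (Set.disjoint_left.2 (by
        rintro _ (rfl | rfl) e
        exacts [n1 _ e.ge rfl, n3 i _ e rfl])))
    obtain rfl : n = 0 := by simpa [deg] using this
    simpa using k1
  · have h3 : ∀ j k (h : j ≠ a), M a j = 2 * k →
        (α * R ⟨gn M j, gn_mem h⟩) ^ k = (R ⟨gn M j, gn_mem h⟩ * α) ^ k := fun j k h e => by
      rcases k with _ | _ | k
      · simp
      · rw [(h1 _ (gn_mem e)).eq]
      · have := h2 ⟨j, by omega⟩
        rwa [show M a j / 2 = k + 1 + 1 by omega] at this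
    obtain ⟨φ, h⟩ := rm_lift ha (fun s => if h : s = a then α else R ⟨gn M s, gn_mem h⟩)
      (fun j k v e => by rw [dif_pos rfl, dif_neg v]; exact h3 j k v e) fun i j u v e => by
        rw [dif_neg u, dif_neg v, ← map_alt, ← map_alt]
        refine congrArg R ((par M {a}ᶜ).subtype_injective ?_)
        rw [map_alt, map_alt]
        exact braid e
    refine ⟨φ, by simp [h], fun ⟨x, hx⟩ => ?_⟩
    induction hx using Subgroup.closure_induction with
    | mem x hx =>
      obtain ⟨s, hs, rfl⟩ := hx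
      exact (h s).trans (dif_neg hs)
    | one => exact (map_one φ).trans (map_one R).symm
    | mul x y hx hy a b =>
      exact (map_mul φ x y).trans ((congrArg₂ _ a b).trans (map_mul R ⟨x, hx⟩ ⟨y, hy⟩).symm)
    | inv x hx a => exact (map_inv φ x).trans ((congrArg _ a).trans (map_inv R ⟨x, hx⟩).symm)

theorem rm_a {i m l j : B} (hi : i ∉ C) (hm : m ∉ C) (hl : l ∉ C) (hj : j ∉ C) (h : Good M i C)
    {r s t u : Ar M} (r1 : r ∈ par M C) (s1 : s ∈ par M C) (t1 : t ∈ par M C) (u1 : u ∈ par M C)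
    (e : gn M i * r * (gn M m)⁻¹ * s * gn M l * t * (gn M j)⁻¹ * u = 1) :
    gn M i * r * (gn M m)⁻¹ ∈ par M C ∨ (gn M j)⁻¹ * u * gn M i ∈ par M C := by
  have up : ∀ (S : Set B) {x}, x ∈ par M C → x ∈ par M (S ∪ C) := fun S _ =>
    fun k => par_mono Set.subset_union_right k
  have f := fun S => fr e (up S r1) (up S s1) (up S t1) (up S u1)
  simp only [inv_mem_iff] at f
  have g : ∀ {S : Set B} {x}, x ∈ S → gn M x ∈ par M (S ∪ C) := fun k => gn_mem (.inl k)
  have dn : ∀ {x p q}, p ≠ q → x ∈ par M ({p} ∪ C) → x ∈ par M ({q} ∪ C) → x ∈ par M C :=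
    fun n k k' => par_mono (by
      rintro _ ⟨rfl | c, d | d⟩
      exacts [(n d).elim, d, c, c]) (par_inf k k')
  by_cases k1 : i = m
  · subst k1
    by_cases k2 : l = j
    · subst k2
      by_cases k3 : l = i
      · subst k3
        refine (h.a r r1 s s1 t t1 u u1 e).imp_right fun p => ?_
        rw [show (gn M l)⁻¹ * u * gn M l = (r * ((gn M l)⁻¹ * s * gn M l) * t)⁻¹ from
          eq_inv_of_mul_eq_one_right (mul_left_cancel (a := gn M l) (mul_right_cancel
            (b := (gn M l)⁻¹) (by rw [mul_one, mul_inv_cancel, ← e]; group)))]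
        exact inv_mem (mul_mem (mul_mem r1 p) t1)
      refine .inl (dn k3 ?_ (mul_mem (mul_mem (g rfl) (up _ r1)) (inv_mem (g rfl))))
      rw [show gn M i * r * (gn M i)⁻¹ = (s * gn M l * t * (gn M l)⁻¹ * u)⁻¹ from
        eq_inv_of_mul_eq_one_left (by rw [← e]; group)]
      exact inv_mem (mul_mem (mul_mem (mul_mem (mul_mem (up _ s1) (g rfl)) (up _ t1))
        (inv_mem (g rfl))) (up _ u1))
    by_cases k3 : l = i
    · subst k3
      exact (sup1 (by simp [hj, Ne.symm k2]) ((f {l}).2.2.2 (g rfl) (g rfl) (g rfl))).elim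
    · exact (sup1 (by simp [hl, k2, k3]) ((f {i, j}).2.2.1 (g (by simp)) (g (by simp))
        (g (by simp)))).elim
  by_cases k2 : i = j
  · subst k2
    by_cases k3 : m = l
    · subst k3
      refine .inr (dn k1 (mul_mem (mul_mem (inv_mem (g rfl)) (up _ u1)) (g rfl)) ?_)
      rw [show (gn M i)⁻¹ * u * gn M i = (r * (gn M m)⁻¹ * s * gn M m * t)⁻¹ from
        eq_inv_of_mul_eq_one_right (mul_left_cancel (a := gn M i) (mul_right_cancel
          (b := (gn M i)⁻¹) (by rw [mul_one, mul_inv_cancel, ← e]; group)))]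
      exact inv_mem (mul_mem (mul_mem (mul_mem (mul_mem (up _ r1) (inv_mem (g rfl))) (up _ s1))
        (g rfl)) (up _ t1))
    · exact (sup1 (by simp [hm, Ne.symm k1, k3]) ((f {i, l}).2.1 (g (by simp)) (g (by simp))
        (g (by simp)))).elim
  by_cases k3 : i = l
  · subst k3
    by_cases k4 : m = j
    · subst k4
      refine (sgn (b := i) (Y := {m} ∪ C) (by simp [hi, k1])
        (mul_mem (mul_mem (up _ r1) (inv_mem (g rfl))) (up _ s1))
        (inv_mem (mul_mem (mul_mem (up _ t1) (inv_mem (g rfl))) (up _ u1))) ?_).elim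
      rw [← mul_inv_rev]
      exact eq_inv_of_mul_eq_one_left (by rw [← e]; group)
    · exact (sup1 (by simp [hm, Ne.symm k1, k4]) ((f {i, j}).2.1 (g (by simp)) (g (by simp))
        (g (by simp)))).elim
  · exact (sup1 (by simp [hi, k1, k2, k3]) ((f {m, l, j}).1 (g (by simp)) (g (by simp))
      (g (by simp)))).elim

theorem rm_m {i l m : B} (hi : i ∉ C) (hm : m ∉ C) (hl : l ∉ C) (h : Good M i C) {n : ℤ}
    {r s t : Ar M} (r1 : r ∈ par M C) (s1 : s ∈ par M C) (t1 : t ∈ par M C)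
    (e : (gn M l)⁻¹ * r * gn M m * s * gn M i ^ n * t = 1 ∨
      gn M l * r * (gn M m)⁻¹ * s * gn M i ^ n * t = 1) : n = 0 := by
  have up : ∀ (S : Set B) {x}, x ∈ par M C → x ∈ par M (S ∪ C) := fun S _ =>
    fun k => par_mono Set.subset_union_right k
  have g : ∀ {S : Set B} {x}, x ∈ S → gn M x ∈ par M (S ∪ C) := fun k => gn_mem (.inl k)
  have f : ∀ S : Set B, (m ∈ S → i ∈ S → gn M l ∈ par M (S ∪ C)) ∧
      (l ∈ S → i ∈ S → gn M m ∈ par M (S ∪ C)) ∧
      (l ∈ S → m ∈ S → gn M i ^ n ∈ par M (S ∪ C)) := fun S => by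
    rcases e with e | e <;>
    · have := fr (w := 1) (u := 1) (by rw [mul_one, mul_one, e]) (up S r1) (up S s1) (up S t1)
        (one_mem _)
      simp only [inv_mem_iff] at this
      exact ⟨fun p q => this.1 (g p) (zpow_mem (g q) n) (one_mem _),
        fun p q => this.2.1 (g p) (zpow_mem (g q) n) (one_mem _),
        fun p q => this.2.2.1 (g p) (g q) (one_mem _)⟩
  by_cases k1 : l = m
  · subst k1
    by_cases k2 : i = l
    · subst k2
      exact h.m n r r1 s s1 t t1 e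
    · exact sup (by simp [hi, k2]) ((f {l}).2.2 rfl rfl)
  by_cases k2 : l = i
  · subst k2
    exact (sup1 (by simp [hm, Ne.symm k1]) ((f {l}).2.1 rfl rfl)).elim
  · exact (sup1 (by simp [hl, k1, k2]) ((f {m, i}).1 (by simp) (by simp))).elim

theorem rm_ex (ha : ∀ t, t ≠ a → Even (M a t))
    (hg : ∀ b, 4 ≤ M a b → Good M b {c | M a c = 2}) : ∃ D : Rv (Ar M) {b // 4 ≤ M a b},
    D.H = par M {a}ᶜ ∧ D.O = par M {c | M a c = 2} ∧ D.a = gn M a ∧ D.L4 := by
  obtain ⟨D, h1, h2, h3, h4⟩ := rm_str ha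
  have n : ∀ i : {b // 4 ≤ M a b}, i.1 ∉ {c | M a c = 2} := fun i (h : M a i.1 = 2) => by
    have := i.2
    omega
  refine ⟨D, h1, h2, h3, Rv.l4 ⟨fun {i i' x x' o o'} p p' q q' e => ?_,
    fun {i m l i' r s t u} r1 s1 t1 u1 e => ?_, fun {i l m x r s t} p r1 s1 t1 e => ?_⟩⟩
  · obtain ⟨k, c, c1, c2, rfl⟩ := D.Kd _ x p
    obtain ⟨m, d, d1, -, rfl⟩ := D.Kd _ x' p'
    have z : k = 0 → D.b i ^ k * c ∈ D.O := fun z => by simpa [z] using c1
    have c3 := mul_mem c1 q
    have d3 := mul_mem d1 q'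
    rw [h2] at c3 d3
    by_cases w : i = i'
    · subst w
      refine ((hg _ i.2).n k m _ c3 _ d3 (by rw [← e, (h4 i).1]; group)).imp z fun y => ⟨rfl, ?_⟩
      rw [← mul_mem_cancel_left c2, (h4 i).2]
      exact par_mono (Set.subset_insert ..) y
    refine .inl (z (sup (M := M) (b := i.1) (Y := insert i'.1 {c | M a c = 2}) ?_ ?_))
    · exact fun y => y.elim (fun y => w (Subtype.ext y)) (n i)
    rw [show gn M i.1 ^ k = (c * o * gn M i'.1 ^ m * (d * o'))⁻¹ from
      eq_inv_of_mul_eq_one_left (by rw [← e, (h4 i).1, (h4 i').1]; group)]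
    exact inv_mem (mul_mem (mul_mem (par_mono (Set.subset_insert ..) c3)
      (zpow_mem (gn_mem (Set.mem_insert ..)) m)) (par_mono (Set.subset_insert ..) d3))
  · simp only [h2, (h4 _).1] at *
    exact rm_a (n i) (n m) (n l) (n i') (hg _ i.2) r1 s1 t1 u1 e
  · obtain ⟨k, c, c1, -, rfl⟩ := D.Kd _ x p
    have c3 := mul_mem c1 t1
    rw [h2] at r1 s1 c3
    obtain rfl : k = 0 := rm_m (n i) (n m) (n l) (hg _ i.2) r1 s1 c3 (by
      simpa only [(h4 _).1, mul_assoc] using e)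
    simpa using c1

theorem rm_good (ha : ∀ t, t ≠ a → Even (M a t))
    (hg : ∀ b, 4 ≤ M a b → Good M b {c | M a c = 2}) : Good M a {a}ᶜ := by
  obtain ⟨D, h1, h2, h3, l⟩ := rm_ex ha hg
  have k1 := Rv.out_N l
  have k2 := Rv.out_A l
  have e1 := D.εa
  have e2 := D.εH
  rw [h1] at e2 k1 k2
  rw [h3] at e1 k1 k2
  refine ⟨fun n m c c1 d d1 e => ?_, k2, fun n r r1 s s1 t t1 e => ?_⟩
  · have := congrArg (fun x => (D.ε x).toAdd) e
    simp [e1, e2 _ c1, e2 _ d1] at this
    obtain rfl : m = -n := by omega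
    rw [h2] at k1
    refine or_iff_not_imp_left.2 fun z => par_mono (fun x p => And.intro ?_ p) (k1 n z c c1 ?_)
    · rintro (rfl : x = a)
      exact absurd ((M.diagonal x).symm.trans p) (by decide)
    · rw [← zpow_neg, eq_inv_of_mul_eq_one_left e]
      exact inv_mem d1
  · rcases e with e | e <;>
    · have := congrArg (fun x => (D.ε x).toAdd) e
      simpa [e1, e2 _ r1, e2 _ s1, e2 _ t1] using this

end Pool.Agent.Lib.MP_35cce7_an.Rm
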