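import Pool.Agent.Lib.MP_35cce7_an.Rm.D

/-! The triangle complex of a translating generator is connected and simply connected. -/

namespace Pool.Agent.Lib.MP_35cce7_an.Rm.Rv

open Relation Equiv

variable {G ι : Type} [Group G] {D : Rv G ι}

theorem sT1 {i j} (h : j < D.k i) (g : G) :
    D.Tt (D.vv i j g) (D.vx .o (g * D.y i ^ j)) (D.vv i (j + 1) g) :=
  .inl (.inl ⟨g, i, j, h, rfl, rfl, rfl⟩)

theorem sT2 {i j} (h : j < D.k i) (g : G) :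
    D.Tt (D.vx .o (g * D.y i ^ j)) (D.vv i (j + 1) g) (D.vx .o (g * D.y i ^ (j + 1))) :=
  .inl (.inr (.inl ⟨g, i, j, h, rfl, rfl, rfl⟩))

theorem sT3 (g : G) : D.Tt (D.vx .h g) (D.vx .o g) (D.vx .f1 g) :=
  .inl (.inr (.inr (.inl ⟨g, rfl, rfl, rfl⟩)))

theorem sT4 (g : G) : D.Tt (D.vx .o g) (D.vx .h (g * D.a)) (D.vx .f2 g) :=
  .inl (.inr (.inr (.inr ⟨g, rfl, rfl, rfl⟩)))

theorem sT5 (i j) (g : G) : D.Tt (D.vx .o (g * D.y i ^ j)) (D.vx .h (g * D.y i ^ (j + 1)))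
    (D.vx .o (g * D.y i ^ (j + 1))) := by
  obtain ⟨n, e⟩ : ∃ n, D.k i = n + 1 := ⟨D.k i - 1, by have := D.k2 i; omega⟩
  have := sT2 (e ▸ n.lt_succ_self : n < D.k i) (g * D.y i ^ j * (D.y i ^ n)⁻¹)
  rw [← e, vv_top, e] at this
  simpa [pow_succ, mul_assoc] using this

theorem Tt.sr {x y z : D.V} (h : D.Tt x y z) : D.Tt y z x :=
  h.elim (fun h => .inr (.inr h)) fun h => h.elim .inl fun h => .inr (.inl h)

theorem sW {i j} (p) (g : G) : D.vv i j g = D.vx (.w i j p) g := dif_pos p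

theorem sR {τ} (g : G) {x : G} (h : x ∈ D.sb τ) : D.vx τ g = D.vx τ (g * x) :=
  vx_eq.2 ⟨rfl, by simpa using h⟩

theorem sPm {α : Type} (r : α → α → Prop) (h1 : ∀ a, ∃! b, r a b) (h2 : ∀ b, ∃! a, r a b) :
    ∃ e : Perm α, ∀ a b, r a b ↔ a = e b := by
  choose f f1 f2 using h1
  choose g g1 g2 using h2
  exact ⟨⟨g, f, fun b => (f2 _ _ (g1 b)).symm, fun a => (g2 _ _ (f1 a)).symm⟩,
    fun a b => ⟨g2 b a, fun e => e ▸ g1 b⟩⟩

section

variable {U : Type} (π : U → D.V) (E : U → U → Prop)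

/-- Coverings. -/
structure SCv : Prop where
  o : ∀ {x y z p}, D.Tt x y z → π p = x → ∃ q, E p q ∧ π q = y
  i : ∀ {x y z q}, D.Tt x y z → π q = y → ∃ p, E p q ∧ π p = x
  ou : ∀ {p q q' y}, E p q → E p q' → π q = y → π q' = y → q = q'
  iu : ∀ {p p' q x}, E p q → E p' q → π p = x → π p' = x → p = p'
  t : ∀ {x y z p q r}, D.Tt x y z → π p = x → π q = y → π r = z → E p q → E q r → E r p

/-- Lifts of the fixed line. -/
def SUp (i : ι) (g : G) (p : U) : ℕ → U → Prop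
  | 0, q => q = p
  | j + 1, q => ∃ r, SUp i g p j r ∧ E q r ∧ π q = D.vv i (j + 1) g

variable {π E}

theorem sUp_K {i g p x} (hx : x ∈ D.K i) :
    ∀ {j q}, j ≤ D.k i → SUp π E i g p j q → SUp π E i (g * x) p j q
  | 0, _, _, h => h
  | _ + 1, _, hj, ⟨r, a, b, c⟩ => ⟨r, sUp_K hx (by omega) a, b, c.trans (vv_K hj g hx).symm⟩

variable (C : SCv π E)
include C

theorem sUp_u {i g p} : ∀ {j q q'}, SUp π E i g p j q → SUp π E i g p j q' → q = q'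
  | 0, _, _, h, h' => h.trans h'.symm
  | _ + 1, _, _, ⟨_, a, b, c⟩, ⟨_, a', b', c'⟩ => C.iu b (sUp_u a a' ▸ b') c c'

theorem sLad {i g} {t : ℕ → U} (h1 : ∀ j, π (t j) = D.vx .h (g * D.y i ^ j))
    (h2 : ∀ j, ∃ m, π m = D.vx .o (g * D.y i ^ j) ∧ E (t j) m ∧ E m (t (j + 1))) :
    (∀ j ≤ D.k i, ∃ q m, SUp π E i g (t 0) j q ∧ π q = D.vv i j g ∧
      π m = D.vx .o (g * D.y i ^ j) ∧ E q m ∧ E (t j) m) ∧
        SUp π E i g (t 0) (D.k i) (t (D.k i)) := by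
  refine (and_iff_left_of_imp fun h => ?_).2 fun j hj => ?_
  · obtain ⟨q, m, a, b, -, d, e⟩ := h _ le_rfl
    rwa [← C.iu d e (b.trans (vv_top i g)) (h1 _)]
  induction j with
  | zero =>
    obtain ⟨m, a, b, -⟩ := h2 0
    exact ⟨_, m, rfl, by rw [h1, vv_zero, pow_zero, mul_one], a, b, b⟩
  | succ j ih =>
    obtain ⟨q, m, a, b, c, d, e⟩ := ih (by omega)
    obtain ⟨m', a', b', c'⟩ := h2 j
    obtain rfl := C.ou e b' c a'
    obtain ⟨q', f, f'⟩ := C.o (sT1 hj g).sr c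
    obtain ⟨n, l, l'⟩ := C.o (sT2 hj g).sr f'
    exact ⟨q', n, ⟨q, a, C.t (sT1 hj g) b c f' d f, f'⟩, f', l', l,
      C.t (sT5 i j g).sr.sr l' c (h1 _) (C.t (sT2 hj g) c f' l' f l) c'⟩

theorem sSec {p₀ : U} (h₀ : π p₀ = D.vx .h 1) : ∃ s : G → U, s 1 = p₀ ∧
    (∀ g, π (s g) = D.vx .h g) ∧ (∀ g, ∀ x ∈ D.H, s (g * x) = s g) ∧
      ∀ g, ∃ m, π m = D.vx .o g ∧ E (s g) m ∧ E m (s (g * D.a)) := by
  let Ω := {c : G × U // π c.2 = D.vx .h c.1}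
  let r : D.H → Ω → Ω := fun x c => ⟨(c.1.1 * x⁻¹, c.1.2), c.2.trans (sR _ (inv_mem x.2))⟩
  obtain ⟨R, hR⟩ : ∃ R : D.H →* Perm Ω, ∀ x c, (R x c).1 = (c.1.1 * (x : G)⁻¹, c.1.2) :=
    ⟨.mk' (fun x => ⟨r x, r x⁻¹, fun c => by simp [r], fun c => by simp [r]⟩) fun x y =>
      Equiv.ext fun c => by simp [r, mul_assoc], fun _ _ => rfl⟩
  obtain ⟨α, hα⟩ := sPm (fun c c' : Ω => c'.1.1 = c.1.1 * D.a ∧
    ∃ m, π m = D.vx .o c.1.1 ∧ E c.1.2 m ∧ E m c'.1.2) (fun c => by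
      obtain ⟨m, a, b⟩ := C.o (sT3 _) c.2
      obtain ⟨q, d, e⟩ := C.o (sT4 _) b
      exact ⟨⟨(_, q), e⟩, ⟨rfl, m, b, a, d⟩, fun c' ⟨u, m', b', a', d'⟩ => Subtype.ext
        (Prod.ext u (C.ou (C.ou a' a b' b ▸ d') d (u ▸ c'.2) e))⟩) fun c => by
      obtain ⟨m, a, b⟩ := C.i (sT4 (c.1.1 * D.a⁻¹)) (by rw [inv_mul_cancel_right]; exact c.2)
      obtain ⟨q, d, e⟩ := C.i (sT3 _) b
      refine ⟨⟨(_, q), e⟩, ⟨by simp, m, b, d, a⟩, fun c' ⟨u, m', b', a', d'⟩ => ?_⟩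
      have u : c'.1.1 = c.1.1 * D.a⁻¹ := by rw [u, mul_inv_cancel_right]
      exact Subtype.ext (Prod.ext u (C.iu (C.iu d' a (u ▸ b') b ▸ a') d (u ▸ c'.2) e))
  obtain ⟨Φ, f0, f1⟩ := D.pres _ R α (fun x hx => Equiv.ext fun c => by
    obtain ⟨u, m, a, b, d⟩ := (hα _ c).2 rfl
    refine ((hα _ _).1 ?_).symm
    simp only [Perm.mul_apply, hR]
    exact ⟨by rw [u, mul_assoc, mul_assoc, (D.ca x hx).inv_right.eq], m,
      a.trans (sR _ (inv_mem hx)), b, d⟩) fun i => by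
    generalize hb : (⟨D.b i, D.KH i (D.bK i)⟩ : D.H) = b
    have hb : (b : G) = D.b i := by rw [← hb]
    have z : ∀ c, ((α * R b)⁻¹ c).1 = (c.1.1 * D.y i, (α⁻¹ c).1.2) := fun c => by
      rw [mul_inv_rev, ← map_inv, Perm.mul_apply, hR, ((hα c (α⁻¹ c)).2 (by simp)).1]
      simp [y, hb, mul_assoc]
    have z1 : ∀ c j, (((α * R b)⁻¹ ^ j) c).1.1 = c.1.1 * D.y i ^ j := fun c j => by
      induction j with
      | zero => simp
      | succ j ih => rw [pow_succ', Perm.mul_apply, z, ih, pow_succ, mul_assoc]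
    have z2 := fun c => (sLad C (t := fun j => (((α * R b)⁻¹ ^ j) c).1.2)
      (fun j => z1 c j ▸ (_ : Ω).2) fun j => by
        simp only [pow_succ', Perm.mul_apply, z, ← z1]
        exact ((hα _ _).2 (by simp)).2).2
    have z3 : Commute ((α * R b)⁻¹ ^ D.k i) (R b) := Equiv.ext fun c => Subtype.ext (Prod.ext
      (by simp only [Perm.mul_apply, hR, z1, mul_assoc, hb, (cz (D.bK i)).inv_right.eq]) (by
        have := z2 (R b c)
        simp only [pow_zero, Perm.one_apply, hR, hb] at this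
        simp only [Perm.mul_apply, hR]
        exact sUp_u C this (sUp_K (inv_mem (D.bK i)) le_rfl (z2 c))))
    rw [inv_pow, Commute.inv_left_iff] at z3
    exact mul_right_cancel (z3.eq.trans (mul_pow_mul _ _ _).symm)
  have f2 : ∀ g c, (Φ g c).1.1 = c.1.1 * g⁻¹ := D.gen
    { carrier := {g | ∀ c, (Φ g c).1.1 = c.1.1 * g⁻¹}
      one_mem' := by simp
      mul_mem' := fun {x y} a b c => by
        rw [map_mul, Perm.mul_apply, a, b, mul_inv_rev, mul_assoc]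
      inv_mem' := fun {x} a c => by
        have := a (Φ x⁻¹ c)
        rw [← Perm.mul_apply, ← map_mul, mul_inv_cancel, map_one, Perm.one_apply] at this
        rw [this, inv_inv, inv_mul_cancel_right] }
    (fun x hx c => by rw [f1 ⟨x, hx⟩, hR])
    fun c => by rw [f0, ((hα _ c).2 rfl).1, mul_inv_cancel_right]
  have f3 : ∀ g, (Φ g⁻¹ ⟨(1, p₀), h₀⟩).1.1 = g := fun g => by rw [f2, inv_inv, one_mul]
  refine ⟨fun g => (Φ g⁻¹ ⟨(1, p₀), h₀⟩).1.2, by simp, fun g => ?_, fun g x hx => ?_, fun g => ?_⟩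
  · rw [Subtype.property (Φ g⁻¹ _), f3]
  · simp only
    rw [mul_inv_rev, map_mul, Perm.mul_apply, f1 ⟨_, inv_mem hx⟩, hR]
  · have := ((hα (Φ g⁻¹ ⟨(1, p₀), h₀⟩) (Φ (g * D.a)⁻¹ ⟨(1, p₀), h₀⟩)).2 (by
      rw [← f0, ← Perm.mul_apply, ← map_mul, mul_inv_rev, mul_inv_cancel_left])).2
    rwa [f3] at this

theorem sSet (e1 : ∀ p q, E p q → ∃ z, D.Tt (π p) (π q) z) {p₀ : U} (h₀ : π p₀ = D.vx .h 1) :
    ∃ S : Set U, p₀ ∈ S ∧ (∀ p q, E p q → (p ∈ S ↔ q ∈ S)) ∧ Set.InjOn π S := by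
  obtain ⟨s, s0, s1, s2, s3⟩ := sSec C h₀
  let I : D.J → G → U → Prop := fun τ g p => match τ with
    | .h => p = s g
    | .o => E (s g) p
    | .f1 => E p (s g)
    | .f2 => E (s (g * D.a)) p
    | .w i j _ => SUp π E i g (s g) j p
  let S := {p | ∃ τ g, π p = D.vx τ g ∧ I τ g p}
  have inj : Set.InjOn π S := by
    rintro p ⟨τ, g, a, b⟩ q ⟨τ', g', c, d⟩ e
    obtain ⟨rfl, u⟩ := vx_eq.1 (a.symm.trans (e.trans c))
    obtain ⟨x, rfl⟩ : ∃ x, g' = g * x := ⟨g⁻¹ * g', by simp⟩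
    rw [inv_mul_cancel_left] at u
    have v := s2 g x (sb_le _ u)
    cases τ <;> simp only [I, v] at b d
    · rw [b, d]
    · exact C.ou b d e rfl
    · exact C.iu b d e rfl
    · rw [mul_assoc, ← (D.ca x u).eq, ← mul_assoc, s2 _ _ (D.OH u)] at d
      exact C.ou b d e rfl
    · exact sUp_u C (sUp_K u (by omega) b) d
  have sS : ∀ g, s g ∈ S := fun g => ⟨.h, g, s1 g, rfl⟩
  have L := fun i g => sLad C (i := i) (g := g) (t := fun j => s (g * D.y i ^ j)) (fun _ => s1 _)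
    fun j => by
      simp only [pow_succ, y, ← mul_assoc, s2 _ _ (D.KH i (D.bK i))]
      exact s3 _
  simp only [pow_zero, mul_one] at L
  have uS : ∀ {i g j q}, j ≤ D.k i → SUp π E i g (s g) j q → π q = D.vv i j g → q ∈ S :=
    fun {i g j q} hj a b => by
      by_cases p : 0 < j ∧ j < D.k i
      · exact ⟨.w i j p, g, b.trans (sW p g), a⟩
      · obtain rfl | rfl : j = 0 ∨ j = D.k i := by omega
        exacts [a ▸ sS g, sUp_u C (L i g).2 a ▸ sS _]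
  have tb : ∀ {x y z}, D.Tb x y z → ∃ p ∈ S, ∃ q ∈ S, ∃ r ∈ S, π p = x ∧ π q = y ∧ π r = z ∧
      E p q ∧ E q r := by
    rintro _ _ _ (⟨g, i, j, h, rfl, rfl, rfl⟩ | ⟨g, i, j, h, rfl, rfl, rfl⟩ | ⟨g, rfl, rfl, rfl⟩ |
      ⟨g, rfl, rfl, rfl⟩)
    iterate 2
      obtain ⟨q, m, a, b, c, d, e⟩ := (L i g).1 j h.le
      obtain ⟨q', m', a', b', c', d', e'⟩ := (L i g).1 _ h
      obtain ⟨r, u, v, -⟩ := id a'
      have w := C.t (sT1 h g).sr.sr b' b c (sUp_u C u a ▸ v) d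
      first
      | exact ⟨q, uS h.le a b, m, ⟨.o, _, c, e⟩, q', uS h a' b', b, c, b', d, w⟩
      | exact ⟨m, ⟨.o, _, c, e⟩, q', uS h a' b', m', ⟨.o, _, c', e'⟩, c, b', c', w, d'⟩
    · obtain ⟨m, a, b, -⟩ := s3 g
      obtain ⟨r, c, d⟩ := C.i (sT3 g).sr.sr (s1 g)
      exact ⟨_, sS g, m, ⟨.o, g, a, b⟩, r, ⟨.f1, g, d, c⟩, s1 g, a, d, b,
        C.t (sT3 g).sr.sr d (s1 g) a c b⟩
    · obtain ⟨m, a, b, c⟩ := s3 g
      obtain ⟨r, d, e⟩ := C.o (sT4 g).sr (s1 _)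
      exact ⟨m, ⟨.o, g, a, b⟩, _, sS _, r, ⟨.f2, g, e, d⟩, a, s1 _, e, c, d⟩
  refine ⟨S, s0 ▸ sS 1, fun p q h => ?_, inj⟩
  obtain ⟨p', a, q', b, c, d, e⟩ : ∃ p' ∈ S, ∃ q' ∈ S, π p' = π p ∧ π q' = π q ∧ E p' q' := by
    obtain ⟨z, t | t | t⟩ := e1 p q h <;> obtain ⟨u, a, v, b, w, c, d, e, f, l, n⟩ := tb t
    exacts [⟨u, a, v, b, d, e, l⟩, ⟨w, c, u, a, f, d, C.t (.inl t) d e f l n⟩,
      ⟨v, b, w, c, e, f, n⟩]
  exact ⟨fun k => C.ou (inj a k c ▸ e) h d rfl ▸ b, fun k => C.iu (inj b k d ▸ e) h c rfl ▸ a⟩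

end

variable (h : D.L4)

theorem tc_hw (x : D.V) : ∃ y, (tc h).Ed x y := by
  obtain ⟨τ, g, rfl⟩ := vx_surj x
  cases τ with
  | w i j p => exact ⟨_, _, sW p g ▸ sT1 p.2 g⟩
  | _ => first | exact ⟨_, _, sT3 g⟩ | exact ⟨_, _, sT4 g⟩ | exact ⟨_, _, (sT3 g).sr.sr⟩ |
    exact ⟨_, _, (sT4 g).sr.sr⟩

theorem tc_hc (x y : D.V) : Relation.EqvGen (tc h).Ed x y := by
  have e : ∀ {x y z}, D.Tt x y z → EqvGen (tc h).Ed x y := fun t => .rel _ _ ⟨_, t⟩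
  have a : ∀ x g, EqvGen (tc h).Ed (D.vx .h g) (D.vx .h (g * x)) := D.gen
    { carrier := {x | ∀ g, EqvGen (tc h).Ed (D.vx .h g) (D.vx .h (g * x))}
      one_mem' := fun g => by rw [mul_one]; exact .refl _
      mul_mem' := fun {x y} a b g => mul_assoc g x y ▸ .trans _ _ _ (a g) (b _)
      inv_mem' := fun {x} a g => by simpa using (a (g * x⁻¹)).symm _ _ }
    (fun x hx g => sR (τ := .h) g hx ▸ .refl _) fun g => .trans _ _ _ (e (sT3 g)) (e (sT4 g))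
  have b : ∀ x, EqvGen (tc h).Ed (D.vx .h 1) x := fun x => by
    obtain ⟨τ, g, rfl⟩ := vx_surj x
    refine .trans _ _ _ (one_mul g ▸ a g 1) ?_
    cases τ with
    | h => exact .refl _
    | o => exact e (sT3 g)
    | f1 => exact (e (sT3 g).sr.sr).symm _ _
    | f2 => exact .trans _ _ _ (e (sT3 g)) ((e (sT4 g).sr.sr).symm _ _)
    | w i j p =>
      rw [← sW p]
      replace p := p.2.le
      induction j with
      | zero => rw [vv_zero]; exact .refl _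
      | succ j ih => exact .trans _ _ _ (ih (by omega)) ((e (sT1 p g).sr.sr).symm _ _)
  exact .trans _ _ _ ((b x).symm _ _) (b y)

theorem tc_sc : (tc h).SC0 := by
  intro U π E e1 e2 e3 e4 p₀
  have C : SCv π E :=
    ⟨fun t e => (e2 _ _ ⟨_, e ▸ t⟩).exists, fun t e => (e3 _ _ ⟨_, e ▸ t⟩).exists,
      fun a b c d => (e2 _ _ (e1 _ _ a)).unique ⟨a, rfl⟩ ⟨b, d.trans c.symm⟩,
      fun a b c d => (e3 _ _ (e1 _ _ a)).unique ⟨a, rfl⟩ ⟨b, d.trans c.symm⟩, by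
      rintro _ _ _ p q r t rfl rfl rfl a b
      obtain ⟨p', c, d⟩ := (e2 r _ ⟨_, t.sr.sr⟩).exists
      exact e4 _ _ _ _ t a b c d ▸ c⟩
  let P := fun x => ∀ p, π p = x →
    ∃ S : Set U, p ∈ S ∧ (∀ p q, E p q → (p ∈ S ↔ q ∈ S)) ∧ Set.InjOn π S
  have : ∀ x y, EqvGen (tc h).Ed x y → (P x ↔ P y) := fun x y a => by
    induction a with
    | rel x y a =>
      obtain ⟨z, t⟩ := a
      refine ⟨fun k q e => ?_, fun k p e => ?_⟩
      · obtain ⟨p, a, b⟩ := C.i t e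
        exact (k p b).imp fun _ s => ⟨(s.2.1 _ _ a).1 s.1, s.2⟩
      · obtain ⟨q, a, b⟩ := C.o t e
        exact (k q b).imp fun _ s => ⟨(s.2.1 _ _ a).2 s.1, s.2⟩
    | refl => rfl
    | symm _ _ _ a => exact a.symm
    | trans _ _ _ _ _ a b => exact a.trans b
  exact (this _ _ (tc_hc h _ _)).1 (fun _ => sSet C e1) p₀ rfl

end Pool.Agent.Lib.MP_35cce7_an.Rm.Rv
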